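import Pool.Agent.H121.FL.Iface
import Pool.Agent.H121.Z987.Main
import Pool.Agent.H717.Z987.Wien
import Pool.Agent.H410.Z987.Graf
import Pool.Agent.H295.Z987.Clos

/-! FL-FML: from fractional moments to exponentially decaying eigenfunctions. -/

set_option autoImplicit false
set_option linter.unusedSectionVars false

open scoped BigOperators InnerProductSpace Topology ENNReal
open Filter MeasureTheory

namespace Pool.Agent.H227.FL

open Pool.Agent.H121.FL
open Pool.Agent.Y662.TR (LL Cf Mw dv hu clp)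
open Pool.Agent.TH369.AN (Rz)
open Pool.Agent.TH369.MU (SpM ep zk spm_exists)
open Pool.Agent.TH369.MU.PO2 (ep_pos ep_tendsto)
open Pool.Agent.H987.Z (Rs Gr)
open Pool.Agent.H987.Y (Lt Ker Op kf)
open Pool.Agent.H121.Z987

theorem tsum_pow (d : ℕ) (g : ℤ → ℝ≥0∞) :
    ∑' x : Fin d → ℤ, ∏ i, g (x i) = (∑' k, g k) ^ d := by
  induction d with
  | zero =>
    rw [pow_zero, tsum_eq_single (default : Fin 0 → ℤ) (fun b hb => absurd (Subsingleton.elim _ _) hb)]
    simp
  | succ d ih =>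
    rw [← (Fin.consEquiv (fun _ : Fin (d + 1) => ℤ)).tsum_eq, ENNReal.tsum_prod', pow_succ, ← ih,
      mul_comm, ← ENNReal.tsum_mul_right]
    refine tsum_congr fun k => ?_
    rw [← ENNReal.tsum_mul_left]
    refine tsum_congr fun x => ?_
    rw [Fin.prod_univ_succ]
    rfl

theorem sum_int (ν : ℝ) (hν : 0 < ν) :
    ∑' k : ℤ, ENNReal.ofReal (Real.exp (-ν * k.natAbs)) ≠ ∞ := by
  have h1 : Summable fun k : ℤ => Real.exp (-ν * k.natAbs) := by
    have h2 : Summable fun n : ℕ => Real.exp (-ν * n) := by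
      have h3 : (fun n : ℕ => Real.exp (-ν * n)) = fun n : ℕ => (Real.exp (-ν)) ^ n := by
        funext n
        rw [← Real.exp_nat_mul]; ring_nf
      rw [h3]
      exact summable_geometric_of_lt_one (Real.exp_pos _).le (by
        rw [Real.exp_lt_one_iff]; linarith)
    refine Summable.of_nat_of_neg ?_ ?_
    · exact h2
    · refine h2.congr fun n => ?_
      simp
  exact h1.tsum_ofReal_ne_top

theorem exp_nm {d : ℕ} (ν : ℝ) (x : Lt d) :
    ENNReal.ofReal (Real.exp (-ν * nm x)) = ∏ i, ENNReal.ofReal (Real.exp (-ν * (x i).natAbs)) := by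
  rw [← ENNReal.ofReal_prod_of_nonneg fun i _ => (Real.exp_pos _).le, ← Real.exp_sum,
    ← Finset.mul_sum]
  unfold nm
  push_cast
  rfl

theorem sum_exp {d : ℕ} (ν : ℝ) (hν : 0 < ν) (y : Lt d) :
    ∑' x : Lt d, ENNReal.ofReal (Real.exp (-ν * nm (x - y))) ≠ ∞ := by
  have h0 : ∑' x : Lt d, ENNReal.ofReal (Real.exp (-ν * nm (x - y))) =
      ∑' x : Lt d, ENNReal.ofReal (Real.exp (-ν * nm x)) :=
    (Equiv.subRight y).tsum_eq (fun x : Lt d => ENNReal.ofReal (Real.exp (-ν * nm x)))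
  rw [h0]
  simp only [exp_nm]
  rw [tsum_pow d (fun k => ENNReal.ofReal (Real.exp (-ν * k.natAbs)))]
  exact ENNReal.pow_ne_top (sum_int ν hν)

theorem nm_le {d : ℕ} (x y : Lt d) : nm x ≤ nm (x - y) + nm y := by
  unfold nm
  rw [← Finset.sum_add_distrib]
  refine Finset.sum_le_sum fun i _ => ?_
  have := Int.natAbs_add_le ((x - y) i) (y i)
  have h2 : (x - y) i + y i = x i := by simp
  rwa [h2] at this

/-- the averaged second moment of one entry -/
noncomputable def J1 {ι : Type} (T : LL ι →L[ℂ] LL ι) (y x : ι) (k : ℕ) : ℝ≥0∞ :=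
  ∫⁻ E, ENNReal.ofReal (ep k * ‖Gr T (zk E k) x y‖ ^ 2) ∂Q

section

variable {ι : Type} [Countable ι]

theorem J1_meas (T : LL ι →L[ℂ] LL ι) (hT : Rs T) (lam : ℝ) (y x : ι) (k : ℕ) :
    Measurable fun ω : ι → ℝ => J1 (HH T lam ω) y x k := by
  unfold J1
  have h1 : Measurable (Function.uncurry fun (E : ℝ) (ω : ι → ℝ) =>
      ENNReal.ofReal (ep k * ‖Gr (HH T lam ω) (zk E k) x y‖ ^ 2)) :=
    (((Gr_meas T hT lam k x y).norm.pow_const 2).const_mul _).ennreal_ofReal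
  exact Measurable.lintegral_prod_left' h1

theorem J1_int (T : LL ι →L[ℂ] LL ι) (hT : Rs T) (lam : ℝ) (s C : ℝ)
    (hs : 0 < s) (μ : Measure ℝ) [IsProbabilityMeasure μ] (hμ : ∀ᵐ v ∂μ, |v| ≤ 1)
    (hg : ∀ (a g : ℂ) (ε : ℝ), 0 < ε → ε ≤ 1 → 0 < a.im → ε * ‖g‖ ^ 2 ≤ a.im →
      ε * ‖a‖ ^ 2 ≤ a.im →
        ∫⁻ v : ℝ, ENNReal.ofReal (ε * ‖g / (1 + (lam : ℂ) * (v : ℂ) * a)‖ ^ 2) ∂μ ≤
          ENNReal.ofReal C *
            ∫⁻ v : ℝ, ENNReal.ofReal (‖g / (1 + (lam : ℂ) * (v : ℂ) * a)‖ ^ s) ∂μ)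
    (y x : ι) (k : ℕ) :
    ∫⁻ ω, J1 (HH T lam ω) y x k ∂(Measure.infinitePi fun _ : ι => μ) ≤
      ENNReal.ofReal C * fs T lam s μ y x * Q Set.univ := by
  unfold J1
  have h1 : Measurable (Function.uncurry fun (E : ℝ) (ω : ι → ℝ) =>
      ENNReal.ofReal (ep k * ‖Gr (HH T lam ω) (zk E k) x y‖ ^ 2)) :=
    (((Gr_meas T hT lam k x y).norm.pow_const 2).const_mul _).ennreal_ofReal
  rw [← lintegral_lintegral_swap (μ := Q) (ν := Measure.infinitePi fun _ : ι => μ)
    (f := fun (E : ℝ) (ω : ι → ℝ) =>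
      ENNReal.ofReal (ep k * ‖Gr (HH T lam ω) (zk E k) x y‖ ^ 2)) h1.aemeasurable]
  calc ∫⁻ E, ∫⁻ ω, ENNReal.ofReal
          (ep k * ‖Gr (HH T lam ω) (zk E k) x y‖ ^ 2) ∂(Measure.infinitePi fun _ : ι => μ) ∂Q ≤
        ∫⁻ _, ENNReal.ofReal C * fs T lam s μ y x ∂Q := by
        refine lintegral_mono fun E => ?_
        exact sm_le T hT lam s C hs μ hμ hg y E k x
    _ = _ := by
        rw [lintegral_const]

end

theorem fml (h1 : S_eig) (h2 : S_wd) : S_fml := by
  intro d T hT lam s D C ν hlam hs hs1 hD hν μ _ hμ hfm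
  classical
  have hfs : ∀ x y, fs T lam s μ y x ≤
      ENNReal.ofReal C * ENNReal.ofReal (Real.exp (-ν * nm (x - y))) := by
    intro x y
    unfold fs fm
    refine iSup_le fun p => ?_
    rw [← ENNReal.ofReal_mul' (Real.exp_pos _).le]
    exact hfm x y _ (by rw [zk_im]; exact ep_pos _)
  have hsum : ∀ y, ∑' x, fs T lam s μ y x ≠ ∞ := by
    intro y
    refine ne_top_of_le_ne_top ?_ (ENNReal.tsum_le_tsum fun x => hfs x y)
    rw [ENNReal.tsum_mul_left]
    exact ENNReal.mul_ne_top ENNReal.ofReal_ne_top (sum_exp ν hν y)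
  obtain ⟨C1, hC1, hgraf⟩ := Pool.Agent.H410.Z987.graf s D lam hs hs1 hD hlam
  have hg := hgraf μ hμ.1 hμ.2
  have t1 : ∀ᵐ ω ∂(Measure.infinitePi fun _ : Lt d => μ), ∀ y : Lt d, ∀ δ : ℝ≥0∞, 0 < δ →
      ∃ F : Finset (Lt d), liminf (fun k => Tl (HH T lam ω) y F k) atTop ≤ δ := by
    rw [ae_all_iff]
    intro y
    exact ae_tight T hT lam s C1 hs μ hμ.1 hg y (hsum y)
  have t2 : ∀ᵐ ω ∂(Measure.infinitePi fun _ : Lt d => μ), ∀ y : Lt d,
      ∑' x, ENNReal.ofReal (Real.exp (ν / 2 * nm (x - y))) *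
        liminf (fun k => J1 (HH T lam ω) y x k) atTop < ∞ := by
    rw [ae_all_iff]
    intro y
    have m1 : ∀ x : Lt d, Measurable fun ω : Lt d → ℝ =>
        liminf (fun k => J1 (HH T lam ω) y x k) atTop := fun x =>
      Measurable.liminf fun k => J1_meas T hT lam y x k
    refine ae_lt_top (Measurable.tsum fun x => (m1 x).const_mul _) ?_
    rw [lintegral_tsum fun x => ((m1 x).const_mul _).aemeasurable]
    have b1 : ∀ x : Lt d, ∫⁻ ω, ENNReal.ofReal (Real.exp (ν / 2 * nm (x - y))) *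
        liminf (fun k => J1 (HH T lam ω) y x k) atTop ∂(Measure.infinitePi fun _ : Lt d => μ) ≤
        (ENNReal.ofReal C1 * Q Set.univ * ENNReal.ofReal C) *
          ENNReal.ofReal (Real.exp (-(ν / 2) * nm (x - y))) := by
      intro x
      rw [lintegral_const_mul _ (m1 x)]
      have b2 : ∫⁻ ω, liminf (fun k => J1 (HH T lam ω) y x k) atTop
          ∂(Measure.infinitePi fun _ : Lt d => μ) ≤
          ENNReal.ofReal C1 * fs T lam s μ y x * Q Set.univ := by
        refine (lintegral_liminf_le (μ := Measure.infinitePi fun _ : Lt d => μ) (u := atTop)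
          (f := fun k ω => J1 (HH T lam ω) y x k) fun k => J1_meas T hT lam y x k).trans ?_
        refine liminf_le_of_frequently_le' (Filter.Eventually.frequently ?_)
        filter_upwards with k
        exact J1_int T hT lam s C1 hs μ hμ.1 hg y x k
      have b3 : ENNReal.ofReal (Real.exp (-(ν / 2) * nm (x - y))) =
          ENNReal.ofReal (Real.exp (ν / 2 * nm (x - y))) *
            ENNReal.ofReal (Real.exp (-ν * nm (x - y))) := by
        rw [← ENNReal.ofReal_mul (Real.exp_pos _).le, ← Real.exp_add]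
        congr 2
        ring
      calc ENNReal.ofReal (Real.exp (ν / 2 * nm (x - y))) *
            ∫⁻ ω, liminf (fun k => J1 (HH T lam ω) y x k) atTop
              ∂(Measure.infinitePi fun _ : Lt d => μ) ≤
            ENNReal.ofReal (Real.exp (ν / 2 * nm (x - y))) *
              (ENNReal.ofReal C1 * (ENNReal.ofReal C *
                ENNReal.ofReal (Real.exp (-ν * nm (x - y)))) * Q Set.univ) := by
            gcongr
            refine b2.trans ?_
            gcongr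
            exact hfs x y
        _ = _ := by
            rw [b3]
            ring
    refine ne_top_of_le_ne_top ?_ (ENNReal.tsum_le_tsum b1)
    rw [ENNReal.tsum_mul_left]
    refine ENNReal.mul_ne_top ?_ (sum_exp (ν / 2) (by linarith) y)
    exact ENNReal.mul_ne_top (ENNReal.mul_ne_top ENNReal.ofReal_ne_top Q_fin) ENNReal.ofReal_ne_top
  filter_upwards [t1, t2] with ω hω1 hω2
  have part2 : ∀ (φ : LL (Lt d)) (m : Measure ℝ), SpM (HH T lam ω) φ m →
      ∃ A : Set ℝ, A.Countable ∧ m Aᶜ = 0 := by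
    intro φ m hm
    refine Pool.Agent.H295.Z987.clos (Lt d) (HH T lam ω) (HH_rs T hT lam ω).sa (fun y => ?_) φ m hm
    obtain ⟨m', hm', -⟩ := spm_exists (HH T lam ω) (HH_rs T hT lam ω).sa (dv y)
    obtain ⟨A, hA1, hA2⟩ := Pool.Agent.H717.Z987.wien (Lt d) (HH T lam ω) (HH_rs T hT lam ω) y
      (hω1 y) m' hm'
    exact ⟨m', A, hm', hA1, hA2⟩
  refine ⟨?_, part2⟩
  intro y δ hδ
  obtain ⟨m, hm, -⟩ := spm_exists (HH T lam ω) (HH_rs T hT lam ω).sa (dv y)
  obtain ⟨A, hA1, hA2⟩ := part2 _ m hm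
  obtain ⟨ψ, he, hl, hF⟩ := h1 (Lt d) (HH T lam ω) (HH_rs T hT lam ω) y m hm
  obtain ⟨F, hF⟩ := hF A hA1 hA2 δ hδ
  refine ⟨F, ψ, fun t _ => ⟨he t, ?_⟩, hF⟩
  -- the decay
  obtain ⟨S, hS⟩ : ∃ S, S = ∑' x, ENNReal.ofReal (Real.exp (ν / 2 * nm (x - y))) *
        liminf (fun k => J1 (HH T lam ω) y x k) atTop := ⟨_, rfl⟩
  have hStop : S ≠ ∞ := by rw [hS]; exact (hω2 y).ne
  have hwt : 0 < wt t := by unfold wt; positivity
  have hK : ∀ x, Real.pi * wt t * ‖ψ t x‖ ^ 2 ≤ S.toReal * Real.exp (-(ν / 2) * nm (x - y)) := by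
    intro x
    have c1 := h2 (Lt d) (HH T lam ω) (HH_rs T hT lam ω) x y t (ψ t x) (hl t x)
    have c2 : ENNReal.ofReal (Real.exp (ν / 2 * nm (x - y))) *
        liminf (fun k => J1 (HH T lam ω) y x k) atTop ≤ S := by
      rw [hS]
      exact ENNReal.le_tsum (f := fun x => ENNReal.ofReal (Real.exp (ν / 2 * nm (x - y))) *
        liminf (fun k => J1 (HH T lam ω) y x k) atTop) x
    have c3 : ENNReal.ofReal (Real.exp (ν / 2 * nm (x - y)) * (Real.pi * wt t * ‖ψ t x‖ ^ 2)) ≤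
        ENNReal.ofReal S.toReal := by
      rw [ENNReal.ofReal_toReal hStop, ENNReal.ofReal_mul (Real.exp_pos _).le]
      refine le_trans ?_ c2
      gcongr
      exact c1
    rw [ENNReal.ofReal_le_ofReal_iff ENNReal.toReal_nonneg] at c3
    have c4 : Real.exp (-(ν / 2) * nm (x - y)) * Real.exp (ν / 2 * nm (x - y)) = 1 := by
      rw [← Real.exp_add]
      rw [Real.exp_eq_one_iff]
      ring
    calc Real.pi * wt t * ‖ψ t x‖ ^ 2 =
          Real.exp (-(ν / 2) * nm (x - y)) *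
            (Real.exp (ν / 2 * nm (x - y)) * (Real.pi * wt t * ‖ψ t x‖ ^ 2)) := by
          rw [← mul_assoc, c4, one_mul]
      _ ≤ Real.exp (-(ν / 2) * nm (x - y)) * S.toReal := by
          gcongr
      _ = _ := mul_comm _ _
  refine ⟨Real.sqrt (S.toReal / (Real.pi * wt t) * Real.exp (ν / 2 * nm y)), fun x => ?_⟩
  have hpw : 0 < Real.pi * wt t := by positivity
  have hnn : 0 ≤ S.toReal / (Real.pi * wt t) * Real.exp (ν / 2 * nm y) := by positivity
  rw [← pow_le_pow_iff_left₀ (norm_nonneg _) (by positivity) two_ne_zero, mul_pow,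
    Real.sq_sqrt hnn, ← Real.exp_nat_mul]
  have c5 : Real.exp (-(ν / 2) * nm (x - y)) ≤
      Real.exp (ν / 2 * nm y) * Real.exp (((2 : ℕ) : ℝ) * (-(ν / 4) * nm x)) := by
    rw [← Real.exp_add, Real.exp_le_exp]
    have c6 : (nm x : ℝ) ≤ nm (x - y) + nm y := by exact_mod_cast nm_le x y
    push_cast
    nlinarith
  have c7 : ‖ψ t x‖ ^ 2 ≤ S.toReal / (Real.pi * wt t) * Real.exp (-(ν / 2) * nm (x - y)) := by
    rw [div_mul_eq_mul_div, le_div_iff₀ hpw, mul_comm]
    exact hK x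
  calc ‖ψ t x‖ ^ 2 ≤ S.toReal / (Real.pi * wt t) * Real.exp (-(ν / 2) * nm (x - y)) := c7
    _ ≤ S.toReal / (Real.pi * wt t) *
        (Real.exp (ν / 2 * nm y) * Real.exp (((2 : ℕ) : ℝ) * (-(ν / 4) * nm x))) := by
        gcongr
    _ = _ := by ring

end Pool.Agent.H227.FL
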